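import Mathlib
import Pool.Agent.Lib.MP_4ffbf9_nt.H.Step

/-!
Divisibility by powers of `y` of Taylor coefficients; the trailing coefficient of a polynomial
with a point of high multiplicity.
-/

set_option autoImplicit false

namespace Pool.Agent.Lib.MP_4ffbf9_nt.ZR

open MvPolynomial Finset Pool.Agent.Subspace Pool.Agent.Lib.MP_4ffbf9_nt.H

/-- `c` is `y ^ m` times an integer, up to a power of `z` in the denominator. -/
def Dv (y z : ℤ) (m : ℕ) (c : ℚ) : Prop := ∃ (j : ℕ) (q : ℤ), (z : ℚ) ^ j * c = (y : ℚ) ^ m * q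

section Dv

variable {y z : ℤ} {m m' : ℕ} {c c' : ℚ}

theorem dv_zero : Dv y z m 0 := ⟨0, 0, by simp⟩

theorem dv_int (a : ℤ) : Dv y z 0 a := ⟨0, a, by simp⟩

theorem Dv.add (h : Dv y z m c) (h' : Dv y z m c') : Dv y z m (c + c') := by
  obtain ⟨j, q, h⟩ := h
  obtain ⟨j', q', h'⟩ := h'
  refine ⟨j + j', z ^ j' * q + z ^ j * q', ?_⟩
  push_cast
  linear_combination (z : ℚ) ^ j' * h + (z : ℚ) ^ j * h'

theorem Dv.mul (h : Dv y z m c) (h' : Dv y z m' c') : Dv y z (m + m') (c * c') := by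
  obtain ⟨j, q, h⟩ := h
  obtain ⟨j', q', h'⟩ := h'
  refine ⟨j + j', q * q', ?_⟩
  push_cast
  calc (z : ℚ) ^ (j + j') * (c * c') = ((z : ℚ) ^ j * c) * ((z : ℚ) ^ j' * c') := by ring
    _ = _ := by rw [h, h']; ring

theorem Dv.mono (h : Dv y z m c) (hm : m' ≤ m) : Dv y z m' c := by
  obtain ⟨j, q, h⟩ := h
  obtain ⟨d, rfl⟩ := Nat.exists_eq_add_of_le hm
  refine ⟨j, y ^ d * q, ?_⟩
  push_cast
  rw [h]; ring

theorem dv_sum {α : Type*} (s : Finset α) {f : α → ℚ} (h : ∀ a ∈ s, Dv y z m (f a)) :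
    Dv y z m (∑ a ∈ s, f a) :=
  Finset.sum_induction f (Dv y z m) (fun _ _ => Dv.add) dv_zero h

theorem Dv.dvd {N : ℤ} (h : Dv y z m N) (hc : IsCoprime y z) : y ^ m ∣ N := by
  obtain ⟨j, q, h⟩ := h
  have h1 : z ^ j * N = y ^ m * q := by exact_mod_cast h
  exact (hc.pow (m := m) (n := j)).dvd_of_dvd_mul_left ⟨q, h1⟩

end Dv

/-- The coefficients of `s ^ k * P` have weighted `y`-order at least `m`. -/
def Good (n : ℕ) (y z s : ℤ) (m k : ℕ) (P : MvPolynomial (Fin 2) ℚ) : Prop :=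
  ∀ ν : Fin 2 →₀ ℕ, Dv y z (m - (n * ν 0 + ν 1)) ((s : ℚ) ^ k * coeff ν P)

section Good

variable {n : ℕ} {y z s : ℤ} {m m' k k' : ℕ} {P P' : MvPolynomial (Fin 2) ℚ}

theorem good_zero : Good n y z s m k 0 := fun ν => by simpa using dv_zero

theorem Good.add (h : Good n y z s m k P) (h' : Good n y z s m k P') :
    Good n y z s m k (P + P') := fun ν => by
  rw [coeff_add, mul_add]
  exact (h ν).add (h' ν)

theorem good_sum {α : Type*} (t : Finset α) {f : α → MvPolynomial (Fin 2) ℚ}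
    (h : ∀ a ∈ t, Good n y z s m k (f a)) : Good n y z s m k (∑ a ∈ t, f a) :=
  Finset.sum_induction f (Good n y z s m k) (fun _ _ => Good.add) good_zero h

theorem Good.mono (h : Good n y z s m k P) (hm : m' ≤ m) (hk : k ≤ k') :
    Good n y z s m' k' P := fun ν => by
  obtain ⟨d, rfl⟩ := Nat.exists_eq_add_of_le hk
  have h1 := (dv_int (y := y) (z := z) (s ^ d)).mul (h ν)
  have h2 : ((s ^ d : ℤ) : ℚ) * ((s : ℚ) ^ k * coeff ν P) = (s : ℚ) ^ (k + d) * coeff ν P := by
    push_cast; ring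
  rw [h2] at h1
  exact h1.mono (by omega)

theorem Good.mul (h : Good n y z s m k P) (h' : Good n y z s m' k' P') :
    Good n y z s (m + m') (k + k') (P * P') := fun ν => by
  classical
  rw [coeff_mul, mul_sum]
  refine dv_sum _ fun p hp => ?_
  have h1 := (h p.1).mul (h' p.2)
  have h2 : (s : ℚ) ^ k * coeff p.1 P * ((s : ℚ) ^ k' * coeff p.2 P') =
      (s : ℚ) ^ (k + k') * (coeff p.1 P * coeff p.2 P') := by ring
  rw [h2] at h1
  refine h1.mono ?_
  rw [← mem_antidiagonal.mp hp]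
  simp only [Finsupp.add_apply, mul_add]
  omega

theorem good_monomial {ν : Fin 2 →₀ ℕ} {c : ℚ}
    (h : Dv y z (m - (n * ν 0 + ν 1)) ((s : ℚ) ^ k * c)) : Good n y z s m k (monomial ν c) := by
  classical
  intro ρ
  rw [coeff_monomial]
  split_ifs with h1
  · rwa [← h1]
  · simpa using dv_zero

theorem good_C {c : ℚ} (h : Dv y z m ((s : ℚ) ^ k * c)) : Good n y z s m k (C c) :=
  good_monomial (ν := 0) (by simpa using h)

theorem good_int (a : ℤ) : Good n y z s 0 0 (C (a : ℚ)) := good_C (by simpa using dv_int a)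

theorem Good.pow (h : Good n y z s m k P) (e : ℕ) : Good n y z s (e * m) (e * k) (P ^ e) := by
  induction e with
  | zero => simpa using good_int (n := n) (y := y) (z := z) (s := s) 1
  | succ e ih => rw [pow_succ, add_mul, add_mul, one_mul, one_mul]; exact ih.mul h

theorem good_X0 : Good n y z s n 0 (X 0) :=
  good_monomial (ν := Finsupp.single 0 1) (by simpa using dv_int (y := y) (z := z) 1)

theorem good_X1 : Good n y z s 1 0 (X 1) :=
  good_monomial (ν := Finsupp.single 1 1) (by simpa using dv_int (y := y) (z := z) 1)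

theorem good_div (hz : z ≠ 0) (x : ℤ) : Good n y z s 0 0 (C ((x : ℚ) / z)) := by
  have hz' : (z : ℚ) ≠ 0 := by exact_mod_cast hz
  exact good_C ⟨1, x, by field_simp⟩

theorem good_shift (hz : z ≠ 0) (x₀ x₁ : ℤ) (V : MvPolynomial (Fin 2) ℤ) :
    Good n y z s 0 0 (shift ![(x₀ : ℚ) / z, (x₁ : ℚ) / z] (map (Int.castRingHom ℚ) V)) := by
  induction V using MvPolynomial.induction_on with
  | C a => simpa [shift] using good_int a
  | add P Q hP hQ => rw [map_add, map_add]; exact hP.add hQ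
  | mul_X P i hP =>
    rw [map_mul, map_mul, map_X, shift_X]
    refine hP.mul (m' := 0) (k' := 0) ?_
    fin_cases i
    · exact (good_div hz x₀).add (good_X0.mono (Nat.zero_le _) le_rfl)
    · exact (good_div hz x₁).add (good_X1.mono (Nat.zero_le _) le_rfl)

end Good

theorem van_of_mul {A B : MvPolynomial (Fin 2) ℚ} (hA : coeff 0 A ≠ 0) {μ : ℕ}
    (h : ∀ ν : Fin 2 →₀ ℕ, ν 0 + ν 1 < μ → coeff ν (A * B) = 0) :
    ∀ ν : Fin 2 →₀ ℕ, ν 0 + ν 1 < μ → coeff ν B = 0 := by
  classical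
  intro ν
  induction hd : ν 0 + ν 1 using Nat.strong_induction_on generalizing ν with
  | _ d ih =>
    intro hμ
    have h1 := h ν (hd ▸ hμ)
    rw [coeff_mul, sum_eq_single (0, ν)] at h1
    · exact (mul_eq_zero.mp h1).resolve_left hA
    · intro p hp hne
      have h2 := mem_antidiagonal.mp hp
      have h0 := DFunLike.congr_fun h2 0
      have h1' := DFunLike.congr_fun h2 1
      simp only [Finsupp.add_apply] at h0 h1'
      have hlt : p.2 0 + p.2 1 < d := by
        by_contra hc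
        have e : p.1 = 0 := by
          ext i
          fin_cases i
          · show p.1 0 = 0
            omega
          · show p.1 1 = 0
            omega
        apply hne
        rw [e, zero_add] at h2
        exact Prod.ext e h2
      rw [ih _ hlt p.2 rfl (by omega), mul_zero]
    · simp

/-- The trailing coefficient in the first variable. -/
theorem exists_trail {V : MvPolynomial (Fin 2) ℤ} (hV : V ≠ 0) {N μ : ℕ} (hd : DegLe 1 N V)
    {x y z : ℤ} (hy : y ≠ 0) (hz : z ≠ 0)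
    (hI : ∀ ν : Fin 2 →₀ ℕ, ν 0 + ν 1 < μ →
      coeff ν (shift ![(y : ℚ) / z, (x : ℚ) / z] (map (Int.castRingHom ℚ) V)) = 0) :
    ∃ R : MvPolynomial (Fin 2) ℤ, R ≠ 0 ∧ DegLe 0 0 R ∧ DegLe 1 N R ∧ l1 R ≤ l1 V ∧
      ∀ (n : ℕ) (s : ℤ) (u : ℚ),
        Good n y z s μ 0 (shift ![u, (x : ℚ) / z] (map (Int.castRingHom ℚ) R)) := by
  classical
  have hy' : (y : ℚ) ≠ 0 := by exact_mod_cast hy
  have hz' : (z : ℚ) ≠ 0 := by exact_mod_cast hz
  obtain ⟨ν₀, hν₀, hmin⟩ := exists_min_image V.support (fun ν => ν 0)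
    (MvPolynomial.support_nonempty.mpr hV)
  set σ : Fin 2 →₀ ℕ := Finsupp.single 0 (ν₀ 0) with hσ
  obtain ⟨V₁, hc, hl⟩ := exists_slice V (φ := fun ν : Fin 2 →₀ ℕ => σ + ν) (add_right_injective σ)
  have hV₁ : V = X 0 ^ ν₀ 0 * V₁ := by
    ext ν
    rw [X_pow_eq_monomial, coeff_monomial_mul', ← hσ]
    split_ifs with h
    · rw [one_mul, hc, add_tsub_cancel_of_le h]
    · by_contra h0
      exact h (Finsupp.single_le_iff.mpr (hmin ν (MvPolynomial.mem_support_iff.mpr h0)))
  set R := V₁.modMonomial (Finsupp.single 0 1) with hR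
  have hRc : ∀ ν : Fin 2 →₀ ℕ, coeff ν R = if ν 0 = 0 then coeff (σ + ν) V else 0 := by
    intro ν
    split_ifs with h
    · rw [hR, coeff_modMonomial_of_not_le _ (by rw [Finsupp.single_le_iff]; omega), hc]
    · rw [hR, coeff_modMonomial_of_le _ (by rw [Finsupp.single_le_iff]; omega)]
  have hR0 : DegLe 0 0 R := by
    intro ν hν
    rw [MvPolynomial.mem_support_iff, hRc] at hν
    by_contra h
    exact hν (if_neg (by omega))
  refine ⟨R, ?_, hR0, ?_, ?_, fun n s u => ?_⟩
  · intro h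
    have h1 := hRc (ν₀ - σ)
    rw [h, coeff_zero, if_pos (by simp [hσ]),
      add_tsub_cancel_of_le (Finsupp.single_le_iff.mpr le_rfl)] at h1
    exact MvPolynomial.mem_support_iff.mp hν₀ h1.symm
  · intro ν hν
    rw [MvPolynomial.mem_support_iff, hRc] at hν
    split_ifs at hν with h
    · simpa [hσ] using hd _ (MvPolynomial.mem_support_iff.mpr hν)
    · exact absurd rfl hν
  · refine le_trans ?_ hl
    refine le_trans (sum_le_sum fun ν _ => ?_) (sum_norm_coeff_le_l1 V₁ R.support)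
    rw [hRc, hc]
    split_ifs
    · exact le_rfl
    · simp
  · set p : Fin 2 → ℚ := ![(y : ℚ) / z, (x : ℚ) / z] with hp
    set W := shift p (map (Int.castRingHom ℚ) V₁) with hW
    have hvan : ∀ ν : Fin 2 →₀ ℕ, ν 0 + ν 1 < μ → coeff ν W = 0 := by
      refine van_of_mul (A := shift p (X 0 ^ ν₀ 0)) ?_ fun ν hν => ?_
      · rw [coeff_zero_shift]
        simp [hp, hy', hz']
      · have := hI ν hν
        rwa [hV₁, map_mul, map_mul, map_pow, map_X] at this
    let ψ : MvPolynomial (Fin 2) ℚ →ₐ[ℚ] MvPolynomial (Fin 2) ℚ :=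
      aeval ![C (-((y : ℚ) / z)), X 1]
    have h1 : ψ W = shift ![u, (x : ℚ) / z] (map (Int.castRingHom ℚ) R) := by
      have h2 : ψ (shift p (X 0)) = 0 := by simp [ψ, hp]
      rw [hW, ← divMonomial_add_modMonomial_single V₁ 0, map_add, map_add, map_add, map_mul,
        map_mul, map_mul, map_X, h2, zero_mul, zero_add, ← hR]
      refine hom_congr_vars (f₁ := (ψ.comp (shift p)).toRingHom)
        (f₂ := (shift ![u, (x : ℚ) / z]).toRingHom) ?_ (fun i hi _ => ?_) rfl
      · ext a : 1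
        simp [shift]
      · fin_cases i
        · obtain ⟨d, hd1, hd2⟩ := (mem_vars_iff_mem_support _).mp hi
          have := hR0 d (support_map_subset _ _ hd1)
          rw [Finsupp.mem_support_iff] at hd2
          exact absurd (Nat.le_zero.mp this) hd2
        · simp [ψ, hp]
    rw [← h1, W.as_sum, map_sum]
    refine good_sum _ fun ν hν => ?_
    rw [aeval_monomial, Finsupp.prod_fintype _ _ fun _ => pow_zero _, Fin.prod_univ_two]
    have g1 : Good n y z s 0 0 (C (coeff ν W)) :=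
      good_C (by simpa using good_shift (n := n) (y := y) (s := s) hz y x V₁ ν)
    have g2 : Good n y z s 1 0 (C (-((y : ℚ) / z))) := good_C ⟨1, -1, by push_cast; field_simp⟩
    have g3 := g1.mul ((g2.pow (ν 0)).mul (good_X1.pow (ν 1)))
    refine g3.mono ?_ (by simp)
    have := mt (hvan ν) (MvPolynomial.mem_support_iff.mp hν)
    omega

end Pool.Agent.Lib.MP_4ffbf9_nt.ZR
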