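import Mathlib
import Pool.Agent.Lib.MP_4ffbf9_nt.ZR.Good

/-!
The auxiliary polynomial `A * R ^ s + X 0 ^ (l + 1) * B` with large weighted index at `(1, 0)`
and at `(∞, ∞)`.
-/

set_option autoImplicit false

namespace Pool.Agent.Lib.MP_4ffbf9_nt.ZR

open MvPolynomial Finset Pool.Agent.Subspace Pool.Agent.Lib.MP_4ffbf9_nt.H

theorem degLe_mul {i : Fin 2} {d d' : ℕ} {P Q : MvPolynomial (Fin 2) ℤ} (hP : DegLe i d P)
    (hQ : DegLe i d' Q) : DegLe i (d + d') (P * Q) := by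
  rw [degLe_iff] at hP hQ ⊢
  exact (hP.mul hQ).mono (by push_cast; linarith)

theorem degLe_pow {i : Fin 2} {d : ℕ} {P : MvPolynomial (Fin 2) ℤ} (hP : DegLe i d P) (e : ℕ) :
    DegLe i (d * e) (P ^ e) := by
  rw [degLe_iff] at hP ⊢
  exact (hP.pow e).mono (by rw [nsmul_eq_mul]; push_cast; linarith)

theorem degLe_mono {i : Fin 2} {d d' : ℕ} {P : MvPolynomial (Fin 2) ℤ} (hP : DegLe i d P)
    (h : d ≤ d') : DegLe i d' P := fun ν hν => (hP ν hν).trans h

theorem degLe_monomial (i : Fin 2) (ν : Fin 2 →₀ ℕ) (c : ℤ) : DegLe i (ν i) (monomial ν c) := by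
  intro ρ hρ
  rw [mem_singleton.mp (support_monomial_subset hρ)]

theorem degLe_comb {β : Type*} [Fintype β] {i : Fin 2} {d : ℕ} (t : β → ℤ)
    {f : β → MvPolynomial (Fin 2) ℤ} (h : ∀ b, DegLe i d (f b)) : DegLe i d (∑ b, t b • f b) := by
  intro ν hν
  rw [MvPolynomial.mem_support_iff, coeff_sum] at hν
  obtain ⟨b, -, hb⟩ := exists_ne_zero_of_sum_ne_zero hν
  rw [coeff_smul] at hb
  exact h b ν (MvPolynomial.mem_support_iff.mpr (right_ne_zero_of_smul hb))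

theorem l1_shift_le {k : ℕ} {P : MvPolynomial (Fin 2) ℤ} (hP : DegLe 0 k P) :
    l1 (shift ![(1 : ℤ), 0] P) ≤ l1 P * 2 ^ k := by
  refine l1_eval₂_le (RingHom.id ℤ) (fun _ => le_rfl) _ P fun ν hν => ?_
  rw [prod_subset (subset_univ _) (fun i _ hi => by
    rw [Finsupp.notMem_support_iff.mp hi, pow_zero]), Fin.prod_univ_two]
  have h0 : l1 (C (1 : ℤ) + X 0 : MvPolynomial (Fin 2) ℤ) ≤ 2 :=
    (l1_add_le _ _).trans (by rw [l1_C, l1_X]; norm_num)
  simp only [Matrix.cons_val_zero, Matrix.cons_val_one, map_zero, zero_add, l1_X, one_pow, mul_one]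
  exact (pow_le_pow_left₀ (l1_nonneg _) h0 _).trans
    (pow_le_pow_right₀ (by norm_num) (hP ν hν))

theorem coeff_comb {β : Type*} [Fintype β] (t : β → ℤ) {φ : β → Fin 2 →₀ ℕ}
    (hφ : Function.Injective φ) (b : β) :
    coeff (φ b) (∑ b', t b' • (monomial (φ b') 1 : MvPolynomial (Fin 2) ℤ)) = t b := by
  classical
  rw [coeff_sum, sum_eq_single b]
  · rw [coeff_smul, coeff_monomial, if_pos rfl, smul_eq_mul, mul_one]
  · intro b' _ hb
    rw [coeff_smul, coeff_monomial, if_neg fun h => hb (hφ h), smul_zero]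
  · simp

theorem aux_poly (E n κ l k₂ s N D₁ : ℕ) (hn : 0 < n) {R : MvPolynomial (Fin 2) ℤ} (hR : R ≠ 0)
    (h0 : DegLe 0 0 R) (h1 : DegLe 1 N R)
    (hcount : ((E : ℝ) + 1) * ((κ : ℝ) ^ 2 / n + 2 * κ) ≤
      E * (((l : ℝ) + 1) * D₁ + k₂ * (D₁ + N * s))) :
    ∃ A B P : MvPolynomial (Fin 2) ℤ, P = A * R ^ s + X 0 ^ (l + 1) * B ∧ P ≠ 0 ∧
      DegLe 0 l A ∧ DegLe 0 k₂ B ∧ DegLe 0 (l + 1 + k₂) P ∧ DegLe 1 (D₁ + N * s) P ∧
      (∀ ν ∈ (shift ![(1 : ℤ), 0] P).support, κ ≤ n * ν 0 + ν 1) ∧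
      (∀ ν ∈ P.support, κ ≤ n * (l + 1 + k₂ - ν 0) + (D₁ + N * s - ν 1)) ∧
      l1 P ≤ (4 ^ (l + 1 + k₂ + (D₁ + N * s)) * l1 R ^ s) ^ (E + 1) := by
  classical
  set k := l + 1 + k₂ with hk
  set D := D₁ + N * s with hD
  let β₁ := Fin (l + 1) × Fin (D₁ + 1)
  let β₂ := Fin (k₂ + 1) × Fin (D + 1)
  let T : Type := {t : Fin (k + 1) × Fin (D + 1) // n * (t.1 : ℕ) + (t.2 : ℕ) < κ}
  let mo : β₁ ⊕ β₂ → MvPolynomial (Fin 2) ℤ :=
    Sum.elim (fun b => monomial (ex b.1 b.2) 1 * R ^ s)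
      (fun b => X 0 ^ (l + 1) * monomial (ex b.1 b.2) 1)
  let M : Matrix (T ⊕ T) (β₁ ⊕ β₂) ℤ := fun i b =>
    Sum.elim (fun t : T => coeff (ex t.1.1 t.1.2) (shift ![(1 : ℤ), 0] (mo b)))
      (fun t : T => coeff (ex (k - t.1.1) (D - t.1.2)) (mo b)) i
  have hβ : Fintype.card (β₁ ⊕ β₂) = (l + 1) * (D₁ + 1) + (k₂ + 1) * (D + 1) := by simp [β₁, β₂]
  have hR1 : 1 ≤ l1 R ^ s := one_le_pow₀ (one_le_l1 hR)
  have hX : DegLe 0 (l + 1) (X 0 ^ (l + 1) : MvPolynomial (Fin 2) ℤ) ∧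
      DegLe 1 0 (X 0 ^ (l + 1) : MvPolynomial (Fin 2) ℤ) := by
    rw [X_pow_eq_monomial]
    exact ⟨degLe_mono (degLe_monomial _ _ _) (by simp), degLe_mono (degLe_monomial _ _ _) (by simp)⟩
  have hmk : ∀ b, DegLe 0 k (mo b) := by
    rintro (b | b)
    · refine degLe_mono (degLe_mul (degLe_monomial _ _ _) (degLe_pow h0 s)) ?_
      have := b.1.2
      rw [ex_zero]; omega
    · refine degLe_mono (degLe_mul hX.1 (degLe_monomial _ _ _)) ?_
      have := b.1.2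
      rw [ex_zero]; omega
  have hmD : ∀ b, DegLe 1 D (mo b) := by
    rintro (b | b)
    · refine degLe_mono (degLe_mul (degLe_monomial _ _ _) (degLe_pow h1 s)) ?_
      have := b.2.2
      rw [ex_one]; omega
    · refine degLe_mono (degLe_mul hX.2 (degLe_monomial _ _ _)) ?_
      have := b.2.2
      rw [ex_one]; omega
  have hml : ∀ b, l1 (mo b) ≤ l1 R ^ s := by
    rintro (b | b)
    · refine (l1_mul_le _ _).trans ?_
      rw [l1_monomial, norm_one, one_mul]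
      exact l1_pow_le _ _
    · refine (l1_mul_le _ _).trans (le_trans ?_ hR1)
      rw [l1_monomial, norm_one, mul_one, X_pow_eq_monomial, l1_monomial, norm_one]
  have h2k : (1 : ℝ) ≤ 2 ^ k := one_le_pow₀ (by norm_num)
  obtain ⟨t, ht0, ht, htb⟩ := siegel M (e := E) (B := l1 R ^ s * 2 ^ k)
    (by
      rw [hβ, Fintype.card_sum]
      push_cast
      have c1 := tri_card hn κ k D
      have c2 : (κ : ℝ) ^ 2 / n + 2 * κ = (κ : ℝ) ^ 2 / (2 * n) + κ + ((κ : ℝ) ^ 2 / (2 * n) + κ) := by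
        ring
      have c3 : (D : ℝ) = D₁ + N * s := by rw [hD]; push_cast; rfl
      refine le_trans ?_ (hcount.trans ?_)
      · rw [c2]
        exact mul_le_mul_of_nonneg_left (add_le_add c1 c1) (by positivity)
      · rw [← c3]
        gcongr <;> linarith)
    (by rw [hβ]; positivity) (one_le_mul_of_one_le_of_one_le hR1 h2k)
    (by
      rintro (i | i) b
      · have := norm_coeff_le_l1 (shift ![(1 : ℤ), 0] (mo b)) (ex i.1.1 i.1.2)
        rw [Int.norm_eq_abs] at this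
        exact this.trans ((l1_shift_le (hmk b)).trans (by gcongr; exact hml b))
      · have := norm_coeff_le_l1 (mo b) (ex (k - i.1.1) (D - i.1.2))
        rw [Int.norm_eq_abs] at this
        exact this.trans ((hml b).trans (le_mul_of_one_le_right (by positivity) h2k)))
  set P : MvPolynomial (Fin 2) ℤ := ∑ b, t b • mo b with hP
  set A : MvPolynomial (Fin 2) ℤ := ∑ b : β₁, t (Sum.inl b) • monomial (ex b.1 b.2) 1 with hA
  set B : MvPolynomial (Fin 2) ℤ := ∑ b : β₂, t (Sum.inr b) • monomial (ex b.1 b.2) 1 with hB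
  have hPAB : P = A * R ^ s + X 0 ^ (l + 1) * B := by
    rw [hP, Fintype.sum_sum_type, hA, hB, sum_mul, mul_sum]
    simp only [mo, Sum.elim_inl, Sum.elim_inr, smul_mul_assoc, mul_smul_comm]
  have hAl : DegLe 0 l A := degLe_comb _ fun b =>
    degLe_mono (degLe_monomial _ _ _) (Nat.lt_succ_iff.mp b.1.2)
  have hBl : DegLe 0 k₂ B := degLe_comb _ fun b =>
    degLe_mono (degLe_monomial _ _ _) (Nat.lt_succ_iff.mp b.1.2)
  have hinj : ∀ u v : ℕ, Function.Injective fun b : Fin u × Fin v => ex b.1 b.2 := by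
    intro u v b b' h
    exact Prod.ext (Fin.ext (by simpa using DFunLike.congr_fun h 0))
      (Fin.ext (by simpa using DFunLike.congr_fun h 1))
  have hPk : DegLe 0 k P := degLe_comb _ hmk
  have hPD : DegLe 1 D P := degLe_comb _ hmD
  refine ⟨A, B, P, hPAB, fun h => ht0 ?_, hAl, hBl, hPk, hPD, fun ν hν => ?_, fun ν hν => ?_, ?_⟩
  · have hB0 : B = 0 := by
      ext ν
      have e1 : coeff (Finsupp.single 0 (l + 1) + ν) (A * R ^ s) = 0 := by
        by_contra hc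
        have := degLe_mul hAl (degLe_pow h0 s) _ (MvPolynomial.mem_support_iff.mpr hc)
        simp at this
        omega
      have e2 := congrArg (coeff (Finsupp.single 0 (l + 1) + ν)) (hPAB.symm.trans h)
      rwa [coeff_add, e1, zero_add, X_pow_eq_monomial, coeff_monomial_mul, one_mul] at e2
    have hA0 : A = 0 := by
      rw [hPAB, hB0, mul_zero, add_zero] at h
      exact (mul_eq_zero.mp h).resolve_right (pow_ne_zero _ hR)
    funext b
    rcases b with b | b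
    · rw [← coeff_comb (fun b => t (Sum.inl b)) (hinj _ _) b, ← hA, hA0]; rfl
    · rw [← coeff_comb (fun b => t (Sum.inr b)) (hinj _ _) b, ← hB, hB0]; rfl
  · by_contra hlt
    push Not at hlt
    have e1 := congrFun ht (Sum.inl ⟨(⟨ν 0, Nat.lt_succ_iff.mpr (hPk.shift _ ν hν)⟩,
      ⟨ν 1, Nat.lt_succ_iff.mpr (hPD.shift _ ν hν)⟩), hlt⟩)
    refine MvPolynomial.mem_support_iff.mp hν ?_
    rw [hP, map_sum, coeff_sum]
    simp only [map_smul, coeff_smul]
    simpa only [M, Matrix.mulVec, dotProduct, Sum.elim_inl, ex_self, mul_comm, smul_eq_mul,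
      Pi.zero_apply] using e1
  · by_contra hlt
    push Not at hlt
    have e1 := congrFun ht (Sum.inr ⟨(⟨k - ν 0, by omega⟩, ⟨D - ν 1, by omega⟩), hlt⟩)
    refine MvPolynomial.mem_support_iff.mp hν ?_
    rw [hP, coeff_sum]
    simp only [coeff_smul]
    simpa only [M, Matrix.mulVec, dotProduct, Sum.elim_inr, ex_self, mul_comm, smul_eq_mul,
      Pi.zero_apply, Nat.sub_sub_self (hPk ν hν), Nat.sub_sub_self (hPD ν hν)] using e1
  · have c1 : (Fintype.card (β₁ ⊕ β₂) : ℝ) * 2 ^ k ≤ 4 ^ (k + D) := by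
      rw [hβ]
      have e1 : (l + 1) * (D₁ + 1) + (k₂ + 1) * (D + 1) ≤ (k + 1) * (D + 1) := by
        have : (l + 1) * (D₁ + 1) ≤ (l + 1) * (D + 1) := Nat.mul_le_mul_left _ (by omega)
        calc _ ≤ (l + 1) * (D + 1) + (k₂ + 1) * (D + 1) := by omega
          _ = _ := by rw [hk]; ring
      have e2 := e1.trans
        (Nat.mul_le_mul (Nat.lt_two_pow_self (n := k)) (Nat.lt_two_pow_self (n := D)))
      have e3 : (((l + 1) * (D₁ + 1) + (k₂ + 1) * (D + 1) : ℕ) : ℝ) ≤ 2 ^ k * 2 ^ D := by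
        exact_mod_cast e2
      calc _ ≤ (2 : ℝ) ^ k * 2 ^ D * 2 ^ k := by gcongr
        _ ≤ 2 ^ k * 2 ^ D * (2 ^ k * 2 ^ D) := by
          gcongr
          exact le_mul_of_one_le_right (by positivity) (one_le_pow₀ (by norm_num))
        _ = _ := by rw [show (4 : ℝ) = 2 * 2 by norm_num, mul_pow]; ring
    have c2 : (Fintype.card (β₁ ⊕ β₂) : ℝ) * (l1 R ^ s * 2 ^ k) ≤ 4 ^ (k + D) * l1 R ^ s := by
      calc _ = (Fintype.card (β₁ ⊕ β₂) : ℝ) * 2 ^ k * l1 R ^ s := by ring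
        _ ≤ _ := by gcongr
    calc l1 P ≤ ∑ b, l1 (t b • mo b) := l1_sum_le _ _
      _ ≤ ∑ _b : β₁ ⊕ β₂, ((4 : ℝ) ^ (k + D) * l1 R ^ s) ^ E * l1 R ^ s := by
          refine sum_le_sum fun b _ => ?_
          rw [smul_eq_C_mul]
          refine (l1_mul_le _ _).trans (mul_le_mul ?_ (hml b) (l1_nonneg _) (by positivity))
          rw [l1_C, Int.norm_eq_abs]
          exact (htb b).trans (by gcongr)
      _ = ((4 : ℝ) ^ (k + D) * l1 R ^ s) ^ E * (Fintype.card (β₁ ⊕ β₂) * l1 R ^ s) := by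
          rw [sum_const, card_univ, nsmul_eq_mul]; ring
      _ ≤ ((4 : ℝ) ^ (k + D) * l1 R ^ s) ^ E * (4 ^ (k + D) * l1 R ^ s) := by
          gcongr
          exact (le_mul_of_one_le_right (by positivity) h2k).trans c1
      _ = _ := by rw [pow_succ]

end Pool.Agent.Lib.MP_4ffbf9_nt.ZR
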