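import Mathlib
import Pool.Agent.Lib.MP_4ffbf9_nt.ZR.Sieg
import Pool.Agent.Lib.MP_4ffbf9_nt.H.Core

/-!
The zero lemma: the point `(y / z, x / z)` attached to a solution of
`a x ^ n + b y ^ n + c z ^ n = 0` is not a point of high multiplicity of a small polynomial.
-/

set_option autoImplicit false

namespace Pool.Agent.Lib.MP_4ffbf9_nt.ZR

open MvPolynomial Finset Pool.Agent.Subspace Pool.Agent.Lib.MP_4ffbf9_nt.H

/-- The two variable index bound with parameters `σ` and `θ`. -/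
def Roth2 (σ θ : ℝ) : Prop :=
  ∀ (d : Fin 2 → ℕ) (x : Fin 2 → ℚ) (P : MvPolynomial (Fin 2) ℤ), P ≠ 0 → (∀ h, 0 < d h) →
    (∀ h h', h < h' → (d h : ℝ) ≤ σ * d h') → (∀ h, DegLe h (d h) P) →
    (∀ h, Real.log (l1 P) + ∑ h', (d h' : ℝ) ≤ σ * d h * Real.log (x h).den) →
    ¬ IdxGe (fun h => 1 / (d h : ℝ)) θ (shift x (map (Int.castRingHom ℚ) P))

theorem hv_shift1 {k D : ℕ} {s₃ t₃ : ℤ} (hs : s₃ ≠ 0) (ht : t₃ ≠ 0) (s₁ t₁ : ℤ)
    {Q : MvPolynomial (Fin 2) ℤ} (hk : DegLe 0 k Q) (hD : DegLe 1 D Q) :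
    hv k D s₁ s₃ t₁ t₃ Q = hv k D (s₁ - s₃) s₃ t₁ t₃ (shift ![(1 : ℤ), 0] Q) := by
  have hs' : (s₃ : ℚ) ≠ 0 := by exact_mod_cast hs
  have : (hv k D s₁ s₃ t₁ t₃ Q : ℚ) = hv k D (s₁ - s₃) s₃ t₁ t₃ (shift ![(1 : ℤ), 0] Q) := by
    rw [hv_eq hs ht _ _ hk hD, hv_eq hs ht _ _ (hk.shift _) (hD.shift _), aeval_shift']
    congr 2
    congr 1
    funext i
    fin_cases i
    · simp; field_simp; ring
    · simp
  exact_mod_cast this

theorem good_deg {n : ℕ} {y z s s₁ : ℤ} (hz : z ≠ 0) (hs : s ≠ 0) (x : ℤ) {d : ℕ}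
    {A : MvPolynomial (Fin 2) ℤ} (hA : DegLe 0 d A) :
    Good n y z s 0 d (shift ![(s₁ : ℚ) / s, (x : ℚ) / z] (map (Int.castRingHom ℚ) A)) := by
  have hs' : (s : ℚ) ≠ 0 := by exact_mod_cast hs
  rw [A.as_sum, map_sum, map_sum]
  refine good_sum _ fun ν hν => ?_
  rw [map_monomial, shift, aeval_monomial, Finsupp.prod_fintype _ _ fun _ => pow_zero _,
    Fin.prod_univ_two]
  have g0 : Good n y z s 0 1 (C ((s₁ : ℚ) / s) + X 0) :=
    (good_C ⟨0, s₁, by field_simp⟩).add (good_X0.mono (Nat.zero_le _) (Nat.zero_le _))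
  have g1 : Good n y z s 0 0 (C ((x : ℚ) / z) + X 1) :=
    (good_div hz x).add (good_X1.mono (Nat.zero_le _) le_rfl)
  exact ((good_int (coeff ν A)).mul ((g0.pow (ν 0)).mul (g1.pow (ν 1)))).mono (Nat.zero_le _)
    (by simpa using hA ν hν)

theorem core {e : ℕ} (he : 0 < e) {σ ε L : ℝ} (H : Roth2 σ (1 / (32 * e))) (hσ : 0 < σ)
    (hε : 0 ≤ ε) (hεσ : 36 * ε ≤ σ) (hεe : 416 * e * ε ≤ 1) (hLσ : 404 * e ≤ σ * L)
    (hLe : 3233 * (e : ℝ) ^ 2 ≤ L) {n x y z μ : ℕ} {a b c : ℤ} {V : MvPolynomial (Fin 2) ℤ}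
    (hn : 1 ≤ σ * n) (hμ : 0 < μ) (hx : 0 < x) (hy : 0 < y) (hz : 0 < z)
    (cxy : Nat.Coprime x y) (cxz : Nat.Coprime x z) (cyz : Nat.Coprime y z) (hb : b ≠ 0)
    (hc : c ≠ 0) (heq : a * x ^ n + b * y ^ n + c * z ^ n = 0)
    (lb : Real.log |(b : ℝ)| ≤ ε * n * L) (lc : Real.log |(c : ℝ)| ≤ ε * n * L)
    (x1 : (1 - ε) * L ≤ Real.log x) (x2 : Real.log x ≤ L) (y1 : (1 - ε) * L ≤ Real.log y)
    (y2 : Real.log y ≤ L) (z1 : (1 - ε) * L ≤ Real.log z) (z2 : Real.log z ≤ L) (hV : V ≠ 0)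
    (hd : DegLe 1 (e * μ) V) (hl : Real.log (l1 V) ≤ ε * μ * L)
    (hI : ∀ ν : Fin 2 →₀ ℕ, ν 0 + ν 1 < μ →
      coeff ν (shift ![(y : ℚ) / z, (x : ℚ) / z] (map (Int.castRingHom ℚ) V)) = 0) : False := by
  classical
  have hx' : (x : ℤ) ≠ 0 := by exact_mod_cast hx.ne'
  have hy' : (y : ℤ) ≠ 0 := by exact_mod_cast hy.ne'
  have hz' : (z : ℤ) ≠ 0 := by exact_mod_cast hz.ne'
  have hn0 : 0 < n := by
    rcases Nat.eq_zero_or_pos n with h | h
    · rw [h] at hn; norm_num at hn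
    · exact h
  have he1 : (1 : ℝ) ≤ e := by exact_mod_cast he
  have hn1 : (1 : ℝ) ≤ n := by exact_mod_cast hn0
  have hμ1 : (1 : ℝ) ≤ μ := by exact_mod_cast hμ
  have hL0 : 0 < L := lt_of_lt_of_le (by positivity) hLe
  have hε4 : ε ≤ 1 / 4 := by nlinarith
  obtain ⟨R, hR, r0, r1, rl, rg⟩ := exists_trail hV hd hy' hz' (x := x) (μ := μ)
    (by simpa only [Int.cast_natCast] using hI)
  obtain ⟨e', rfl⟩ : ∃ e', e = e' + 1 := ⟨e - 1, by omega⟩
  obtain ⟨l, hl'⟩ : ∃ l, l + 1 = 16 * μ := ⟨16 * μ - 1, by omega⟩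
  set e := e' + 1 with he'
  have hlr : (l : ℝ) + 1 = 16 * μ := by exact_mod_cast hl'
  have her : (e : ℝ) = e' + 1 := by rw [he']; push_cast; rfl
  obtain ⟨A, B, P, hPAB, hP0, hA, hB, hPk, hPD, i1, i3, hPl⟩ := aux_poly (32 * e) n
    ((64 * e' + 60) * μ * n) l ((64 * e' + 48) * μ) (16 * n) (e * μ) (48 * e * μ * n) hn0 hR r0 r1
    (by
      rw [hlr]
      push_cast
      rw [her]
      have h1 : (((64 * e' + 60 : ℝ) * μ * n) ^ 2 / n) = (64 * e' + 60) ^ 2 * μ ^ 2 * n := by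
        field_simp
      rw [h1]
      have h2 : (0 : ℝ) ≤ (64 * e' + 60) * μ * n * ((64 * e' + 68) * μ - (64 * e' + 66)) := by
        refine mul_nonneg (by positivity) ?_
        have : (0 : ℝ) ≤ e' := Nat.cast_nonneg _
        nlinarith
      linarith)
  obtain ⟨k, hk⟩ : ∃ k, k = 64 * e * μ := ⟨_, rfl⟩
  have hk1 : l + 1 + (64 * e' + 48) * μ = k := by rw [hk, hl', he']; ring
  have hD1 : 48 * e * μ * n + e * μ * (16 * n) = n * k := by rw [hk]; ring
  rw [hk1] at hPk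
  rw [hD1] at hPD
  rw [hk1, hD1] at i3 hPl
  set D := n * k with hD
  set κ := (64 * e' + 60) * μ * n with hκ
  have hkr : (k : ℝ) = 64 * e * μ := by rw [hk]; push_cast; rfl
  have hDr : (D : ℝ) = n * k := by rw [hD]; push_cast; rfl
  have hk0 : (0 : ℝ) < k := by rw [hkr]; positivity
  have hD0 : (0 : ℝ) < D := by rw [hDr]; positivity
  have hkD : (k : ℝ) ≤ D := by rw [hDr]; exact le_mul_of_one_le_left hk0.le hn1
  have hP1 := one_le_l1 hP0
  have hR1 := one_le_l1 hR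
  have hlogP : Real.log (l1 P) ≤ 99 * e * D + 9 * ε * D * L := by
    have h1 := Real.log_le_log (by linarith) hPl
    rw [Real.log_pow, Real.log_mul (by positivity) (by positivity), Real.log_pow, Real.log_pow]
      at h1
    have h2 : Real.log 4 ≤ 3 / 2 := by
      rw [show (4 : ℝ) = 2 ^ 2 by norm_num, Real.log_pow]
      push_cast
      linarith [Real.log_two_lt_d9]
    have h3 : Real.log (l1 R) ≤ ε * μ * L := (Real.log_le_log (by linarith) rl).trans hl
    have h4 : 0 ≤ Real.log 4 := Real.log_nonneg (by norm_num)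
    have h5 := Real.log_nonneg hR1
    push_cast at h1
    calc Real.log (l1 P) ≤ (33 * e) * ((2 * D) * (3 / 2) + 16 * n * (ε * μ * L)) := by
          refine h1.trans ?_
          gcongr <;> linarith
      _ = 99 * e * D + 33 / 4 * (ε * D * L) := by rw [hDr, hkr]; ring
      _ ≤ _ := by
          have : 0 ≤ ε * D * L := by positivity
          linarith
  have hs3 : c * (z : ℤ) ^ n ≠ 0 := mul_ne_zero hc (pow_ne_zero _ hz')
  have key : Real.log (l1 P) + ((k : ℝ) + D) ≤ σ * D * (L / 2) := by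
    have h1 : 9 * ε * D * L ≤ σ / 4 * D * L := by gcongr; linarith
    have h2 : 404 * e * (D : ℝ) ≤ σ * L * D := by gcongr
    have h3 : (D : ℝ) ≤ e * D := le_mul_of_one_le_left hD0.le he1
    linarith
  have hRo := H ![k, D] ![((-b * y ^ n : ℤ) : ℚ) / ((c * z ^ n : ℤ) : ℚ), ((x : ℤ) : ℚ) / (z : ℤ)]
    P hP0
    (by intro h; fin_cases h; exacts [by exact_mod_cast hk0, by exact_mod_cast hD0])
    (by
      intro h h' hh
      fin_cases h <;> fin_cases h'
      · exact absurd hh (lt_irrefl _)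
      · show (k : ℝ) ≤ σ * D
        rw [hDr, ← mul_assoc]
        exact le_mul_of_one_le_left hk0.le hn
      · exact absurd hh (by decide)
      · exact absurd hh (lt_irrefl _))
    (by intro h; fin_cases h; exacts [hPk, hPD])
    (by
      intro h
      rw [Fin.sum_univ_two]
      fin_cases h
      · have h1 := log_den_ge (G := 1) (pow_pos hz n) (neg_ne_zero.mpr hb) hc
          (Nat.Coprime.pow n n cyz).le
        rw [Nat.cast_pow, Nat.cast_pow, Nat.cast_pow, Real.log_pow, Nat.cast_one, Real.log_one,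
          Int.cast_neg, abs_neg] at h1
        refine key.trans ?_
        have h2 : (n : ℝ) * ((1 - ε) * L) ≤ n * Real.log z := by gcongr
        have h3 : ε * (n * L) ≤ 1 / 4 * (n * L) := by gcongr
        calc σ * D * (L / 2) = σ * k * (n * L / 2) := by rw [hDr]; ring
          _ ≤ _ := mul_le_mul_of_nonneg_left (by
              show _ ≤ Real.log (((-b * y ^ n : ℤ) : ℚ) / ((c * z ^ n : ℤ) : ℚ)).den
              linarith) (by positivity)
      · have h1 := log_den_ge (G := 1) (c := 1) (d := 1) hz one_ne_zero one_ne_zero cxz.le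
        rw [one_mul, one_mul, Nat.cast_one, Real.log_one, Int.cast_one, abs_one, Real.log_one] at h1
        refine key.trans (mul_le_mul_of_nonneg_left ?_ (by positivity))
        show _ ≤ Real.log ((((x : ℤ) : ℚ)) / (z : ℤ)).den
        have h3 : ε * L ≤ 1 / 4 * L := by gcongr
        linarith)
  unfold IdxGe at hRo
  push Not at hRo
  obtain ⟨ν, hν, hw⟩ := hRo
  rw [Finsupp.weight_eq_sum, Fin.sum_univ_two] at hw
  simp only [Matrix.cons_val_zero, Matrix.cons_val_one, nsmul_eq_mul, mul_one_div] at hw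
  set w := n * ν 0 + ν 1 with hwd
  have hw2 : (w : ℝ) ≤ 2 * μ * n := by
    have h1 : (w : ℝ) = ((ν 0 : ℝ) / k + (ν 1 : ℝ) / D) * D := by
      rw [hwd, hDr]; push_cast; field_simp
    have h2 : 1 / (32 * (e : ℝ)) * D = 2 * μ * n := by rw [hDr, hkr]; field_simp; norm_num
    rw [h1, ← h2]
    gcongr
  set Q := hasse ν P with hQ
  have hQk : DegLe 0 k Q := hPk.hasse ν
  have hQD : DegLe 1 D Q := hPD.hasse ν
  set N := hv k D (-b * y ^ n) (c * z ^ n) x z Q with hN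
  have hNq : (N : ℚ) = ((c * z ^ n : ℤ) : ℚ) ^ k * ((z : ℤ) : ℚ) ^ D *
      coeff ν (shift ![((-b * y ^ n : ℤ) : ℚ) / ((c * z ^ n : ℤ) : ℚ), ((x : ℤ) : ℚ) / (z : ℤ)]
        (map (Int.castRingHom ℚ) P)) := by
    rw [hN, hv_eq hs3 hz' _ _ hQk hQD, coeff_shift, ← map_hasse, eval_map]
    rfl
  have hN0 : N ≠ 0 := by
    intro h
    have h1 : ((c * z ^ n : ℤ) : ℚ) ≠ 0 := by exact_mod_cast hs3
    have h2 : ((z : ℤ) : ℚ) ≠ 0 := by exact_mod_cast hz'
    rw [h, Int.cast_zero] at hNq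
    exact MvPolynomial.mem_support_iff.mp hν
      ((mul_eq_zero.mp hNq.symm).resolve_left (by positivity))
  have v1 : x ^ (κ - w) ∣ N.natAbs := by
    rw [← Int.natCast_dvd, Nat.cast_pow, hN, hv_shift1 hs3 hz' _ _ hQk hQD]
    refine dvd_hv (p := n) _ _ ⟨a, by linarith only [heq]⟩ dvd_rfl fun ρ hρ => ?_
    rw [hQ, ← hasse_shift] at hρ
    have := i1 _ (mem_support_hasse hρ)
    simp only [Finsupp.add_apply, mul_add] at this
    omega
  have v3 : z ^ κ ∣ N.natAbs := by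
    rw [← Int.natCast_dvd, Nat.cast_pow]
    refine dvd_hv' (p := n) _ _ (Dvd.intro_left _ rfl) dvd_rfl fun ρ hρ => ?_
    have := i3 _ (mem_support_hasse hρ)
    simp only [Finsupp.add_apply] at this
    exact this.trans (add_le_add (Nat.mul_le_mul_left _ (by omega)) (by omega))
  have v2 : y ^ (16 * μ * n - w) ∣ N.natAbs := by
    rw [← Int.natCast_dvd, Nat.cast_pow]
    refine Dv.dvd (z := z) ?_ (Nat.isCoprime_iff_coprime.mpr cyz)
    have hs' : ((c * z ^ n : ℤ) : ℚ) ≠ 0 := by exact_mod_cast hs3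
    have g0 : Good n y z (c * z ^ n) n 1
        (C (((-b * y ^ n : ℤ) : ℚ) / ((c * z ^ n : ℤ) : ℚ)) + X 0) :=
      (good_C ⟨0, -b, by rw [pow_zero, one_mul, pow_one, mul_div_cancel₀ _ hs']; push_cast; ring⟩).add
        (good_X0.mono le_rfl (Nat.zero_le _))
    have g : Good n y z (c * z ^ n) (16 * μ * n) k
        (shift ![((-b * y ^ n : ℤ) : ℚ) / ((c * z ^ n : ℤ) : ℚ), ((x : ℤ) : ℚ) / (z : ℤ)]
          (map (Int.castRingHom ℚ) P)) := by
      rw [hPAB]
      simp only [map_add, map_mul, map_pow, map_X, shift_X]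
      refine Good.add ?_ ?_
      · exact ((good_deg hz' hs3 x hA).mul ((rg _ _ _).pow _)).mono (le_of_eq (by ring))
          (by omega)
      · exact ((g0.pow _).mul (good_deg hz' hs3 x hB)).mono (le_of_eq (by rw [hl']; ring))
          (by omega)
    have g2 := (dv_int (y := y) (z := z) ((z : ℤ) ^ D)).mul (g ν)
    rw [zero_add, Int.cast_pow, ← mul_assoc, mul_comm (((z : ℤ) : ℚ) ^ D), ← hNq] at g2
    exact g2
  have m1 := mul_le_of_dvd (Int.natAbs_pos.mpr hN0) v1 v2 v3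
  rw [Nat.Coprime.pow _ _ cxy, Nat.Coprime.pow _ _ cxz, Nat.Coprime.pow _ _ cyz, mul_one,
    mul_one, mul_one] at m1
  have m2 : (x : ℝ) ^ (κ - w) * (y : ℝ) ^ (16 * μ * n - w) * (z : ℝ) ^ κ ≤ |(N : ℝ)| := by
    rw [← Int.cast_abs, Int.abs_eq_natAbs]
    exact_mod_cast m1
  have hnL : ∀ t : ℝ, t ≤ L → n * t ≤ n * L := fun t ht => by gcongr
  have m3 := m2.trans (abs_hv_le (m := 0) (p := 0) (u := 1) (S := Real.exp ((1 + ε) * n * L))
    (R := Real.exp L) zero_le_one le_rfl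
    (by
      rw [one_pow, mul_one]
      refine abs_le_exp (mul_ne_zero (neg_ne_zero.mpr hb) (pow_ne_zero _ hy')) ?_
      rw [log_abs_mul (neg_ne_zero.mpr hb) hy, Int.cast_neg, abs_neg]
      linarith [hnL _ y2])
    (abs_le_exp hs3 (by rw [log_abs_mul hc hz]; linarith [hnL _ z2]))
    (by rw [mul_one]; exact abs_le_exp hx' (by simpa using x2))
    (abs_le_exp hz' (by simpa using z2)) hQk hQD fun _ _ => Nat.zero_le _)
  have m4 : l1 Q ≤ 2 ^ (k + D) * l1 P := l1_hasse_le ν P fun ρ hρ => by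
    rw [Fin.sum_univ_two]
    exact add_le_add (hPk ρ hρ) (hPD ρ hρ)
  have hxr : (0 : ℝ) < x := by exact_mod_cast hx
  have hyr : (0 : ℝ) < y := by exact_mod_cast hy
  have hzr : (0 : ℝ) < z := by exact_mod_cast hz
  have m5 := Real.log_le_log (by positivity)
    (m3.trans (mul_le_mul_of_nonneg_right m4 (by positivity)))
  rw [pow_zero, mul_one, Real.log_mul (by positivity) (by positivity),
    Real.log_mul (by positivity) (by positivity), Real.log_mul (by positivity) (by positivity),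
    Real.log_mul (by positivity) (by positivity), Real.log_mul (by positivity) (by positivity)]
    at m5
  simp only [Real.log_pow, Real.log_exp] at m5
  have hsub : ∀ s : ℕ, (s : ℝ) - w ≤ ((s - w : ℕ) : ℝ) := by
    intro s
    have h2 : (s : ℝ) ≤ ((s - w : ℕ) : ℝ) + w := by exact_mod_cast (le_tsub_add : s ≤ s - w + w)
    linarith only [h2]
  obtain ⟨M, hM⟩ : ∃ M : ℝ, M = μ * n := ⟨_, rfl⟩
  have hM0 : 0 < M := by rw [hM]; positivity
  have hκr : (κ : ℝ) = D - 4 * M := by rw [hκ, hDr, hkr, her, hM]; push_cast; ring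
  have hDM : (D : ℝ) = 64 * e * M := by rw [hDr, hkr, hM]; ring
  have hτ : 0 ≤ (1 - ε) * L := mul_nonneg (by linarith) hL0.le
  have b1 := mul_le_mul (hsub κ) x1 hτ (Nat.cast_nonneg _)
  have b2 := mul_le_mul (hsub (16 * μ * n)) y1 hτ (Nat.cast_nonneg _)
  have b3 := mul_le_mul_of_nonneg_left z1 (Nat.cast_nonneg κ)
  have b4 : (w : ℝ) * ((1 - ε) * L) ≤ 2 * M * ((1 - ε) * L) :=
    mul_le_mul_of_nonneg_right (by rw [hM]; linarith) hτ
  have b5 : ((k + D : ℕ) : ℝ) * Real.log 2 ≤ 2 * (e * D) := by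
    have h2 : Real.log 2 ≤ 1 := by linarith only [Real.log_two_lt_d9]
    refine (mul_le_of_le_one_right (Nat.cast_nonneg _) h2).trans ?_
    have h3 : (D : ℝ) ≤ e * D := le_mul_of_one_le_left hD0.le he1
    push_cast
    linarith
  have b6 : (k : ℝ) * ((1 + ε) * n * L) = (1 + ε) * D * L := by rw [hDr]; ring
  have b7 : ((16 * μ * n : ℕ) : ℝ) = 16 * M := by rw [hM]; push_cast; ring
  have b8 : 13 * (ε * D * L) ≤ 2 * (M * L) := by
    calc 13 * (ε * D * L) = 2 * (M * L) * (416 * e * ε) := by rw [hDM]; ring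
      _ ≤ _ := mul_le_of_le_one_right (by positivity) hεe
  have b9 : 101 * (e * (D : ℝ)) < 2 * (M * L) := by
    have h1 : M * (3233 * (e : ℝ) ^ 2) ≤ M * L := by gcongr
    have h2 : 0 < M * (e : ℝ) ^ 2 := by positivity
    rw [hDM]
    linarith
  have b10 : ε * M * L ≤ 1 / 64 * (ε * D * L) := by
    rw [hDM]
    have : ε * M * L ≤ e * (ε * M * L) := le_mul_of_one_le_left (by positivity) he1
    linarith
  have b11 : 0 ≤ ε * D * L := by positivity
  rw [b7] at b2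
  rw [hκr] at b1 b3
  rw [hκr, b6] at m5
  linarith

end Pool.Agent.Lib.MP_4ffbf9_nt.ZR
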